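import Pool.Agent.Helper95.RP.St

set_option autoImplicit false

namespace Pool.Agent.Helper48.RP

open Pool.Agent.Helper95.RP Finset
open scoped Classical

theorem TU_arith (t Y X a w : ℤ) (hY : 0 ≤ Y) (ht : 0 ≤ t)
    (h1 : w ^ 2 ≤ t * Y) (h2 : a ^ 2 + Y ≤ X) : (a + w) ^ 2 ≤ (t + 1) * X := by
  have h3 : 2 * a * w ≤ Y + t * a ^ 2 := by
    by_contra h
    push Not at h
    have h4 : (Y + t * a ^ 2) ^ 2 < (2 * a * w) ^ 2 :=
      pow_lt_pow_left₀ h (by positivity) (by norm_num)
    have h5 : a ^ 2 * w ^ 2 ≤ a ^ 2 * (t * Y) := mul_le_mul_of_nonneg_left h1 (by positivity)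
    nlinarith [sq_nonneg (Y - t * a ^ 2)]
  have h6 : (t + 1) * (a ^ 2 + Y) ≤ (t + 1) * X := mul_le_mul_of_nonneg_left h2 (by positivity)
  nlinarith

theorem hTU : TU := by
  intro N G t
  induction t with
  | zero =>
    intro W h
    obtain ⟨u, hu, -⟩ := h ∅ (empty_subset _) rfl
    exact absurd hu (notMem_empty u)
  | succ t ih =>
    intro W h
    rcases W.eq_empty_or_nonempty with rfl | hne
    · simp
    obtain ⟨v, hv, hmin⟩ := exists_min_image W (fun v => dg G W v) hne
    set C : Finset (Fin N) := insert v (W.filter (fun u => G.Adj v u)) with hC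
    have hCW : C ⊆ W := by
      intro x hx
      rw [hC, mem_insert] at hx
      rcases hx with rfl | hx
      · exact hv
      · exact (mem_filter.1 hx).1
    have hCc : C.card = dg G W v + 1 := by
      rw [hC, card_insert_of_notMem]
      · rfl
      · intro h'
        exact G.loopless.irrefl v (mem_filter.1 h').2
    have ih' := ih (W \ C) (by
      intro S hS hSc
      have hvS : v ∉ S := fun h' => (mem_sdiff.1 (hS h')).2 (mem_insert_self _ _)
      obtain ⟨x, hx, y, hy, hxy⟩ := h (insert v S) (by
        intro z hz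
        rcases mem_insert.1 hz with rfl | hz
        · exact hv
        · exact (mem_sdiff.1 (hS hz)).1) (by rw [card_insert_of_notMem hvS, hSc])
      have hno : ∀ z ∈ S, ¬ G.Adj v z := by
        intro z hz hadj
        exact (mem_sdiff.1 (hS hz)).2 (mem_insert_of_mem (mem_filter.2 ⟨(mem_sdiff.1 (hS hz)).1, hadj⟩))
      rcases mem_insert.1 hx with hx' | hx'
      · rcases mem_insert.1 hy with hy' | hy'
        · rw [hx', hy'] at hxy
          exact absurd hxy (G.loopless.irrefl _)
        · rw [hx'] at hxy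
          exact absurd hxy (hno y hy')
      · rcases mem_insert.1 hy with hy' | hy'
        · rw [hy'] at hxy
          exact absurd hxy.symm (hno x hx')
        · exact ⟨x, hx', y, hy', hxy⟩)
    have hX : e2 G W + W.card = ∑ x ∈ W, (dg G W x + 1) := by
      rw [sum_add_distrib]
      simp [e2]
    have hY : e2 G (W \ C) + (W \ C).card = ∑ x ∈ W \ C, (dg G (W \ C) x + 1) := by
      rw [sum_add_distrib]
      simp [e2]
    have h1 : (dg G W v + 1) ^ 2 + (e2 G (W \ C) + (W \ C).card) ≤ e2 G W + W.card := by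
      rw [hX, hY, ← sum_sdiff hCW, add_comm]
      refine Nat.add_le_add ?_ ?_
      · refine sum_le_sum fun x _ => Nat.add_le_add_right ?_ 1
        exact card_le_card (filter_subset_filter _ sdiff_subset)
      · calc (dg G W v + 1) ^ 2 = ∑ _x ∈ C, (dg G W v + 1) := by
              rw [sum_const, hCc, smul_eq_mul, sq]
          _ ≤ ∑ x ∈ C, (dg G W x + 1) :=
              sum_le_sum fun x hx => Nat.add_le_add_right (hmin x (hCW hx)) 1
    have h2 : W.card = (dg G W v + 1) + (W \ C).card := by
      rw [← hCc, add_comm, card_sdiff_add_card_eq_card hCW]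
    have h3 := TU_arith t (e2 G (W \ C) + (W \ C).card : ℕ) (e2 G W + W.card : ℕ)
      (dg G W v + 1 : ℕ) ((W \ C).card : ℕ) (by positivity) (by positivity) (by exact_mod_cast ih') (by exact_mod_cast h1)
    conv_lhs => rw [h2]
    exact_mod_cast h3

end Pool.Agent.Helper48.RP
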